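import Pool.Agent.Lib.MP_c77dc5_gt.Main

namespace Pool.Agent.Lib.MP_c77dc5_gt.Variants.ConnSumTC

open Pool.Agent.Lib.MP_c77dc5_gt

universe u v

theorem result (n : ℕ) (M₁ : Type u) (M₂ : Type v) [TopologicalSpace M₁] [TopologicalSpace M₂]
    [T2Space M₁] [T2Space M₂] [CompactSpace M₁] [CompactSpace M₂]
    [ChartedSpace (EuclideanSpace ℝ (Fin n)) M₁] [ChartedSpace (EuclideanSpace ℝ (Fin n)) M₂]
    (h₁ : Aspherical M₁) (h₂ : Aspherical M₂) (e₁ : EuclideanSpace ℝ (Fin n) → M₁)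
    (e₂ : EuclideanSpace ℝ (Fin n) → M₂) (he₁ : Topology.IsOpenEmbedding e₁)
    (he₂ : Topology.IsOpenEmbedding e₂) :
    2 * (n : ℕ∞) ≤ TC (ConnSum e₁ e₂) := by
  obtain _ | n := n
  · simp
  refine le_sInf ?_
  rintro _ ⟨k, ⟨U, u1, u2, u3⟩, rfl⟩
  obtain ⟨E₁, _, p₁, _, q₁, s₁⟩ := h₁
  obtain ⟨E₂, _, p₂, _, q₂, s₂⟩ := h₂
  have : Infinite (EuclideanSpace ℝ (Fin (n + 1))) := Module.Free.infinite ℝ _
  have := Infinite.of_injective e₁ he₁.injective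
  have := Infinite.of_injective e₂ he₂.injective
  have : Nonempty (ConnSum e₁ e₂) := ⟨Quot.mk _ (.inl ⟨_, (exists_ne (e₁ 0)).choose_spec⟩)⟩
  obtain ⟨f₁, f₂, H, H'⟩ := connSum_half he₁ he₂
  exact_mod_cast two_mul_le q₁ q₂ s₁ s₂ H H' u1 u2 u3

end Pool.Agent.Lib.MP_c77dc5_gt.Variants.ConnSumTC
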